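import Pool.Agent.Lib_helper36.GC7.Steps

/-!
# The two theorems on recursions
-/

set_option autoImplicit false

namespace Pool.Agent.Lib_helper36.GC7

open Finset

theorem tt_step {m n : ℕ} {y : ℕ → ℕ} (hy : Chain m n y)
    (ih : ∀ q, Chain m n q → rest m n q < rest m n y → Lev m n q) {i : ℕ}
    (hi : i < m) (he : y (i + 1) = y i) (hn : y i < n) : TT m n i y := by
  obtain ⟨L, hL, heq, htop⟩ := exists_top hy i (by omega)
  have hmem : ∀ r, r ≤ m → r ∈ range (m + 1) := fun r hr => Finset.mem_range.2 (by omega)
  have gL := heq L le_rfl hL
  have hFL : Free n y L := ⟨by omega, by rw [gL]; exact htop⟩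
  have hP := hy.blk (by omega) hn hL heq htop
  have hPr := rest_blk (m := m) (n := n) (p := y) (L := L) (l := i) (by omega) hn hL
  have hL1 := ih _ hP hPr
  have hL2 := ih _ (hy.up hFL) (rest_up (by omega) hFL.1)
  -- left side
  have b1 : blk y L i i = y i + 1 := if_pos ⟨hL, le_rfl⟩
  have b2 : blk y L i (i + 1) = y (i + 1) := if_neg (by omega)
  have hA : W m n i i (up y i) = ∑ r ∈ range (m + 1),
      if blk y L i r < n ∧ (r = L ∨ Free n (blk y L i) r) then
        W m n L i (up (blk y L i) r) else 0 := by
    rw [push (by omega) hn L hL heq, W_a (hP.real _) hi (by omega), if_neg (by omega), add_zero]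
  -- right side
  have hpush : W m n (i + 1) (i + 1) (up y (i + 1)) = W m n L (i + 1) (blk y L (i + 1)) :=
    push (by omega) (by omega) L (by omega) (fun s hs1 hs2 => by
      rcases Nat.lt_or_ge i s with h | h
      · rw [show s = i + 1 by omega]
      · rw [he]; exact heq s hs1 h)
  have hC : W m n (i + 1) (i + 1) y = ∑ r ∈ range (m + 1),
      if y r < n ∧ (r = i + 1 ∨ Free n y r) then W m n (i + 1) (i + 1) (up y r) else 0 := by
    rcases (Nat.succ_le_of_lt hi).lt_or_eq with h1 | h1
    · have h1' : i + 1 < m := h1
      rw [W_a (hy.real _) h1' (by omega), if_neg (by omega), add_zero]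
    · have h1' : i + 1 = m := h1
      subst h1'
      rw [W_top (hy.real _), if_neg (fun h => by have := h (i + 1) (by omega); omega), zero_add]
      refine Finset.sum_congr rfl fun r _ => ?_
      by_cases h3 : Free n y r
      · rw [if_pos h3, if_pos ⟨h3.1, Or.inr h3⟩]
      · rw [if_neg h3]
        by_cases h4 : r = i + 1
        · rw [h4, if_pos ⟨by omega, Or.inl rfl⟩, hpush, W_zero _ _ (by omega)]
        · rw [if_neg (by tauto)]
  unfold TT
  rw [hA, hC]
  refine two_cols (l := i + 1) (L := L) (hmem _ (by omega)) (hmem _ (by omega)) (by omega) _ _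
    (fun r hr h1 h2 => ?_) ?_
  · -- general column
    rw [Finset.mem_range] at hr
    have g1 := heq r
    have g2 := heq (r - 1)
    have hc : r = 0 ∨ y r ≤ y (r - 1) := by
      rcases Nat.eq_zero_or_pos r with h | h
      · exact Or.inl h
      · have := hy.2 (r - 1) (by omega)
        rw [Nat.sub_add_cancel h] at this
        exact Or.inr this
    by_cases hF : Free n y r
    · have hF' := hF
      unfold Free at hF'
      have fP : Free n (blk y L i) r := by
        unfold Free blk
        split_ifs <;> omega
      rw [if_pos ⟨fP.1, Or.inr fP⟩, if_pos ⟨hF.1, Or.inr hF⟩]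
      have hri : r ≠ i := by omega
      have h3 := (ih _ (hy.up hF) (rest_up (by omega) hF.1)).tt i hi
        (by rw [up_ne _ h1.symm, up_ne _ hri.symm]; exact he) (by rw [up_ne _ hri.symm]; exact hn)
      unfold TT at h3
      rw [← h3]
      have e1 : up y r i = y i := up_ne _ hri.symm
      have e2 : blk (up y r) L i = up (blk y L i) r := by
        funext s
        simp only [up, blk]
        split_ifs <;> omega
      rw [← e2]
      symm
      exact push (by omega) (by rw [e1]; exact hn) L hL (fun s hs1 hs2 => by
        rw [e1, up_ne _ (by omega)]; exact heq s hs1 hs2)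
    · have hF' := hF
      unfold Free at hF'
      rw [if_neg (by tauto : ¬ (y r < n ∧ (r = i + 1 ∨ Free n y r))), if_neg]
      unfold Free blk
      split_ifs <;> omega
  · -- the two special columns
    have hNi : ¬ Free n y (i + 1) := by
      rintro ⟨_, h | h⟩
      · omega
      · rw [Nat.add_sub_cancel] at h; omega
    have hFi : Free n (blk y L i) (i + 1) := by
      refine ⟨by omega, Or.inr ?_⟩
      rw [Nat.add_sub_cancel, b1, b2]
      omega
    have c1 : blk y L (i + 1) = up (blk y L i) (i + 1) := by
      funext s
      simp only [up, blk]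
      split_ifs <;> omega
    rw [if_pos (show blk y L i (i + 1) < n ∧ (i + 1 = L ∨ Free n (blk y L i) (i + 1)) from
        ⟨hFi.1, Or.inr hFi⟩),
      if_pos (show y (i + 1) < n ∧ (i + 1 = i + 1 ∨ Free n y (i + 1)) from
        ⟨by omega, Or.inl rfl⟩),
      if_pos (show y L < n ∧ (L = i + 1 ∨ Free n y L) from ⟨hFL.1, Or.inr hFL⟩), hpush, c1]
    have hR := hL1.rr L i hL hi (by omega)
    unfold RR at hR
    have e6 : (if blk y L i L < n ∧ (L = L ∨ Free n (blk y L i) L) then
        W m n L i (up (blk y L i) L) else 0) =
        (if blk y L i L < n then W m n L i (up (blk y L i) L) else 0) :=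
      if_congr ⟨fun h => h.1, fun h => ⟨h, Or.inl rfl⟩⟩ rfl rfl
    have e7 : W m n (i + 1) (i + 1) (up y L) = W m n (L + 1) (max (L + 1) i) (blk y L i) := by
      rcases hL.lt_or_eq with h | h
      · have h3 := hL2.tt i hi (by rw [up_ne _ (by omega), up_ne _ (by omega)]; exact he)
          (by rw [up_ne _ (by omega)]; exact hn)
        unfold TT at h3
        have e1 : up y L i = y i := up_ne _ (by omega)
        have c2 : blk (up y L) (L + 1) i = blk y L i := by
          funext s
          simp only [up, blk]
          split_ifs <;> omega
        rw [← h3, max_eq_right (by omega), ← c2]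
        exact push (by omega) (by rw [e1]; exact hn) (L + 1) h (fun s hs1 hs2 => by
          rw [e1, up_ne _ (by omega)]; exact heq s (by omega) hs2)
      · subst h
        have e : blk y L L = up y L := by
          funext s
          unfold up blk
          split_ifs <;> omega
        rw [e, max_eq_left (by omega)]
    rw [e6, e7]
    omega

theorem ee_step {m n : ℕ} {y : ℕ → ℕ} (hy : Chain m n y)
    (hrr : ∀ l j, l ≤ j → j < m → y (j + 1) < y j → RR m n l j y)
    (htt : ∀ i, i < m → y (i + 1) = y i → y i < n → TT m n i y) (l : ℕ) :
    ∀ d, l + d < m → y (l + d + 1) = y (l + d) → EE m n l (l + d) y := by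
  intro d
  induction d with
  | zero =>
    intro h1 h2
    simp only [Nat.add_zero] at h1 h2 ⊢
    unfold EE
    have h3 := split_l (m := m) (n := n) (l := l) (y := y) (by omega)
      (fun r => W m n l l (up y r))
    rw [W_a (hy.real _) h1 (by omega), h3, max_eq_left (by omega), add_assoc]
    congr 1
    rcases (hy.1 l (by omega)).lt_or_eq with h4 | h4
    · have h5 := htt l h1 h2 h4
      unfold TT at h5
      rw [if_pos h4, if_neg (by omega), add_zero, h5]
    · rw [if_neg (by omega), if_pos ⟨rfl, h4, by omega⟩, zero_add]
  | succ d ih =>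
    intro h1 h2
    set j := l + d with hj
    have e0 : l + (d + 1) = j + 1 := by omega
    rw [e0] at h1 h2 ⊢
    have hmax : W m n (l + 1) (max (l + 1) (j + 1)) y = W m n (l + 1) (max (l + 1) j) y := by
      rcases Nat.lt_or_ge l j with h | h
      · rw [max_eq_right (by omega), max_eq_right (by omega), W_b _ _ (by omega) h1 h2]
        rfl
      · rw [max_eq_left (by omega), max_eq_left (by omega)]
    unfold EE
    rw [hmax, W_b _ _ (by omega) h1 h2, Nat.add_sub_cancel]
    have hN2 : ¬ Free n y (j + 2) := by
      rintro ⟨_, h | h⟩
      · omega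
      · have e4 : j + 2 - 1 = j + 1 := rfl
        rw [e4] at h
        have h2' : y (j + 2) = y (j + 1) := h2
        omega
    have hterm : ∀ r, r ≠ j + 1 → Free n y r →
        W m n l (j + 1) (up y r) = W m n l j (up y r) := by
      intro r h3 h4
      have h5 : r ≠ j + 2 := fun h => hN2 (h ▸ h4)
      rw [W_b _ _ (by omega) h1 (by
        rw [up_ne _ h3.symm, up_ne _ (fun h => h5 h.symm)]; exact h2), Nat.add_sub_cancel]
    rcases (hy.2 j (by omega)).lt_or_eq with h3 | h3
    · have hR := hrr l j (by omega) (by omega) h3
      unfold RR at hR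
      have hsp := split_l (m := m) (n := n) (l := l) (y := y) (by omega)
        (fun r => W m n l j (up y r))
      have hF := free_succ hy (by omega) h3
      have hmem : j + 1 ∈ range (m + 1) := Finset.mem_range.2 (by omega)
      have hwa : W m n l j y = ∑ r ∈ range (m + 1),
          if y r < n ∧ (r = l ∨ Free n y r) then W m n l j (up y r) else 0 := by
        rw [W_a (hy.real _) (by omega) (by omega), if_neg (by omega), add_zero]
      have hrest : ∑ r ∈ (range (m + 1)).erase (j + 1),
          (if r ≠ l ∧ Free n y r then W m n l j (up y r) else 0) =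
          ∑ r ∈ (range (m + 1)).erase (j + 1),
          (if r ≠ l ∧ Free n y r then W m n l (j + 1) (up y r) else 0) := by
        refine Finset.sum_congr rfl fun r hr => ?_
        rw [Finset.mem_erase] at hr
        by_cases h4 : r ≠ l ∧ Free n y r
        · rw [if_pos h4, if_pos h4, hterm r hr.1 h4.2]
        · rw [if_neg h4, if_neg h4]
      have s1 : (if j + 1 ≠ l ∧ Free n y (j + 1) then W m n l j (up y (j + 1)) else 0) +
          ∑ r ∈ (range (m + 1)).erase (j + 1),
          (if r ≠ l ∧ Free n y r then W m n l j (up y r) else 0) =
          ∑ r ∈ range (m + 1), (if r ≠ l ∧ Free n y r then W m n l j (up y r) else 0) :=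
        Finset.add_sum_erase (range (m + 1))
          (fun r => if r ≠ l ∧ Free n y r then W m n l j (up y r) else 0) hmem
      have s2 : (if j + 1 ≠ l ∧ Free n y (j + 1) then W m n l (j + 1) (up y (j + 1)) else 0) +
          ∑ r ∈ (range (m + 1)).erase (j + 1),
          (if r ≠ l ∧ Free n y r then W m n l (j + 1) (up y r) else 0) =
          ∑ r ∈ range (m + 1), (if r ≠ l ∧ Free n y r then W m n l (j + 1) (up y r) else 0) :=
        Finset.add_sum_erase (range (m + 1))
          (fun r => if r ≠ l ∧ Free n y r then W m n l (j + 1) (up y r) else 0) hmem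
      have hjl : j + 1 ≠ l := by omega
      rw [if_pos ⟨hjl, hF⟩] at s1 s2
      omega
    · have hE := ih (by omega) h3
      unfold EE at hE
      rw [hE]
      congr 1
      refine Finset.sum_congr rfl fun r hr => ?_
      by_cases h4 : r ≠ l ∧ Free n y r
      · rw [if_pos h4, if_pos h4, hterm r ?_ h4.2]
        rintro rfl
        rcases h4.2 with ⟨_, h5 | h5⟩
        · omega
        · rw [Nat.add_sub_cancel] at h5
          omega
      · rw [if_neg h4, if_neg h4]

theorem lev {m n : ℕ} : ∀ (k : ℕ) (y : ℕ → ℕ), rest m n y = k → Chain m n y → Lev m n y := by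
  intro k
  induction k using Nat.strong_induction_on with
  | _ k ih =>
    intro y hk hy
    have ih' : ∀ q, Chain m n q → rest m n q < rest m n y → Lev m n q :=
      fun q hq hlt => ih _ (by rw [← hk]; exact hlt) q rfl hq
    have hrr : ∀ l j, l ≤ j → j < m → y (j + 1) < y j → RR m n l j y :=
      fun l j h1 h2 h3 => rr_step hy ih' h1 h2 h3
    have htt : ∀ i, i < m → y (i + 1) = y i → y i < n → TT m n i y :=
      fun i h1 h2 h3 => tt_step hy ih' h1 h2 h3
    refine ⟨hrr, htt, fun l i h1 h2 h3 => ?_⟩
    obtain ⟨d, rfl⟩ := Nat.exists_eq_add_of_le h1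
    exact ee_step hy hrr htt l d h2 h3

/-- **Upper bound**: every solution of the recursion of the star lies below the family -/
theorem bound (m n : ℕ) (G : ℕ → (ℕ → ℕ) → ℕ)
    (h : ∀ i y, i ≤ m → Chain m n y →
      (G i y ≤ (if i = m ∧ Full m n y then 1 else 0) +
        ∑ r ∈ range (m + 1), if Free n y r then G i (up y r) else 0) ∨
      (i < m ∧ y (i + 1) = y i ∧
        G i y ≤ (∑ r ∈ range (m + 1), if r ≠ i ∧ Free n y r then G i (up y r) else 0) +
          G (i + 1) y)) :
    ∀ i y, i ≤ m → Chain m n y → G i y ≤ W m n i i y := by
  have key : ∀ k d i y, rest m n y = k → i + d = m → Chain m n y → G i y ≤ W m n i i y := by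
    intro k
    induction k using Nat.strong_induction_on with
    | _ k ih =>
      intro d
      induction d with
      | zero =>
        intro i y hk hd hy
        have hi : i = m := by omega
        subst hi
        rcases h i y le_rfl hy with h1 | h1
        · refine h1.trans ?_
          rw [W_top (hy.real _)]
          refine Nat.add_le_add (by rw [if_congr (show (i = i ∧ Full i n y) ↔ Full i n y from
            ⟨fun h => h.2, fun h => ⟨rfl, h⟩⟩) rfl rfl]) (Finset.sum_le_sum fun r hr => ?_)
          rw [Finset.mem_range] at hr
          split_ifs with h2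
          · exact ih _ (by rw [← hk]; exact rest_up (by omega) h2.1) 0 _ _ rfl (by omega)
              (hy.up h2)
          · exact le_rfl
        · exact absurd h1.1 (lt_irrefl _)
      | succ d ihd =>
        intro i y hk hd hy
        have hi : i < m := by omega
        have hstep : ∀ r, r ∈ range (m + 1) → Free n y r →
            G i (up y r) ≤ W m n i i (up y r) := by
          intro r hr h2
          rw [Finset.mem_range] at hr
          exact ih _ (by rw [← hk]; exact rest_up (by omega) h2.1) (d + 1) _ _ rfl hd (hy.up h2)
        rcases h i y hi.le hy with h1 | ⟨_, h2, h1⟩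
        · refine h1.trans ?_
          rw [if_neg (by omega), zero_add, W_a (hy.real _) hi (by omega)]
          refine le_trans (Finset.sum_le_sum fun r hr => ?_) (Nat.le_add_right _ _)
          by_cases h3 : Free n y r
          · rw [if_pos h3, if_pos ⟨h3.1, Or.inr h3⟩]
            exact hstep r hr h3
          · rw [if_neg h3]
            exact Nat.zero_le _
        · refine h1.trans ?_
          have hE := (lev _ y rfl hy).ee i i le_rfl hi h2
          unfold EE at hE
          rw [max_eq_left (by omega)] at hE
          rw [hE]
          refine Nat.add_le_add (Finset.sum_le_sum fun r hr => ?_)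
            (ihd (i + 1) y hk (by omega) hy)
          by_cases h3 : r ≠ i ∧ Free n y r
          · rw [if_pos h3, if_pos h3]
            exact hstep r hr h3.2
          · rw [if_neg h3, if_neg h3]
  intro i y hi hy
  exact key _ (m - i) i y rfl (by omega) hy

/-- **Lower bound** for the corner path: right as long as possible, then down -/
theorem corner (m n : ℕ) (G : ℕ → (ℕ → ℕ) → ℕ)
    (h : ∀ i y, i ≤ m → Chain m n y → (i = 0 ∨ ∀ r, r ≤ i → y r = n) →
      (if i = m ∧ Full m n y then 1 else 0) +
        (∑ r ∈ range (m + 1), if Free n y r then G i (up y r) else 0) +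
        (if i < m ∧ y i = n ∧ y (i + 1) = n then G (i + 1) y else 0) ≤ G i y) :
    W m n 0 0 (fun _ => 0) ≤ G 0 (fun _ => 0) := by
  have key : ∀ k d i y, rest m n y = k → i + d = m → Chain m n y →
      (i = 0 ∨ ∀ r, r ≤ i → y r = n) → W m n i i y ≤ G i y := by
    intro k
    induction k using Nat.strong_induction_on with
    | _ k ih =>
      intro d
      induction d with
      | zero =>
        intro i y hk hd hy hc
        have hi : i = m := by omega
        subst hi
        refine le_trans ?_ (h i y le_rfl hy hc)
        rw [W_top (hy.real _), if_neg (show ¬ (i < i ∧ y i = n ∧ y (i + 1) = n) from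
          fun h => absurd h.1 (lt_irrefl _)), add_zero]
        refine Nat.add_le_add (by rw [if_congr (show (i = i ∧ Full i n y) ↔ Full i n y from
          ⟨fun h => h.2, fun h => ⟨rfl, h⟩⟩) rfl rfl]) (Finset.sum_le_sum fun r hr => ?_)
        rw [Finset.mem_range] at hr
        split_ifs with h2
        · refine ih _ (by rw [← hk]; exact rest_up (by omega) h2.1) 0 _ _ rfl (by omega)
            (hy.up h2) ?_
          rcases hc with hc | hc
          · exact Or.inl hc
          · have h3 := hc r
            have h4 := h2.1
            omega
        · exact le_rfl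
      | succ d ihd =>
        intro i y hk hd hy hc
        have hi : i < m := by omega
        refine le_trans ?_ (h i y hi.le hy hc)
        rw [if_neg (show ¬ (i = m ∧ Full m n y) from fun h => by omega), zero_add,
          W_a (hy.real _) hi (by omega)]
        refine Nat.add_le_add (Finset.sum_le_sum fun r hr => ?_) ?_
        · rw [Finset.mem_range] at hr
          by_cases h2 : Free n y r
          · rw [if_pos h2, if_pos ⟨h2.1, Or.inr h2⟩]
            refine ih _ (by rw [← hk]; exact rest_up (by omega) h2.1) (d + 1) _ _ rfl hd
              (hy.up h2) ?_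
            rcases hc with hc | hc
            · exact Or.inl hc
            · refine Or.inr fun s hs => ?_
              have h4 := h2.1
              have h5 : s ≠ r := by
                rintro rfl
                have := hc s hs
                omega
              rw [up_ne _ h5]
              exact hc s hs
          · rw [if_neg h2, if_neg]
            rintro ⟨h3, h4 | h4⟩
            · subst h4
              rcases hc with hc | hc
              · exact h2 ⟨h3, Or.inl hc⟩
              · have := hc r le_rfl
                omega
            · exact h2 h4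
        · by_cases h2 : y i = n ∧ y (i + 1) = n
          · rw [if_pos ⟨rfl, h2⟩, if_pos ⟨hi, h2⟩]
            refine ihd (i + 1) y hk (by omega) hy (Or.inr fun s hs => ?_)
            rcases Nat.lt_or_ge i s with h3 | h3
            · rw [show s = i + 1 by omega]
              exact h2.2
            · exact le_antisymm (hy.1 s (by omega)) (by rw [← h2.1]; exact hy.le h3 hi.le)
          · rw [if_neg (fun h => h2 h.2), if_neg (fun h => h2 h.2)]
  exact key _ m 0 _ rfl (by omega) ⟨fun _ _ => Nat.zero_le _, fun _ _ => le_rfl⟩ (Or.inl rfl)

end Pool.Agent.Lib_helper36.GC7
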