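import Mathlib

/-!
# The family `W l i y`

`y` are the numbers of boxes in the rows `0, ..., m`, with `y r ≤ n`.
-/

set_option autoImplicit false

namespace Pool.Agent.Lib_helper36.GC7

open Finset

/-- one more box in row `r` -/
def up (y : ℕ → ℕ) (r : ℕ) : ℕ → ℕ := fun s => if s = r then y s + 1 else y s

/-- one more box in each of the rows `L, ..., l` -/
def blk (y : ℕ → ℕ) (L l : ℕ) : ℕ → ℕ := fun s => if L ≤ s ∧ s ≤ l then y s + 1 else y s

/-- row `r` may get a box -/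
def Free (n : ℕ) (y : ℕ → ℕ) (r : ℕ) : Prop := y r < n ∧ (r = 0 ∨ y r < y (r - 1))

instance (n : ℕ) (y : ℕ → ℕ) (r : ℕ) : Decidable (Free n y r) := by
  unfold Free; infer_instance

/-- the row lengths of a Young diagram in the box -/
def Chain (m n : ℕ) (y : ℕ → ℕ) : Prop := (∀ r, r ≤ m → y r ≤ n) ∧ ∀ r, r < m → y (r + 1) ≤ y r

/-- the full box -/
def Full (m n : ℕ) (y : ℕ → ℕ) : Prop := ∀ r, r < m + 1 → y r = n

instance (m n : ℕ) (y : ℕ → ℕ) : Decidable (Full m n y) := by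
  unfold Full; infer_instance

/-- number of missing boxes -/
def rest (m n : ℕ) (y : ℕ → ℕ) : ℕ := ∑ r ∈ range (m + 1), (n - y r)

theorem up_self (y : ℕ → ℕ) (r : ℕ) : up y r r = y r + 1 := if_pos rfl

theorem up_ne (y : ℕ → ℕ) {r s : ℕ} (h : s ≠ r) : up y r s = y s := if_neg h

theorem up_comm (y : ℕ → ℕ) (r s : ℕ) : up (up y r) s = up (up y s) r := by
  funext t
  unfold up
  split_ifs <;> omega

theorem rest_up {m n : ℕ} {y : ℕ → ℕ} {r : ℕ} (hr : r ≤ m) (h : y r < n) :
    rest m n (up y r) < rest m n y := by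
  unfold rest
  refine Finset.sum_lt_sum (fun s _ => ?_) ⟨r, Finset.mem_range.2 (by omega), ?_⟩
  · unfold up
    split_ifs <;> omega
  · rw [up_self]
    omega

/-- the family -/
def W (m n l i : ℕ) (y : ℕ → ℕ) : ℕ :=
  if _hv : 1 ≤ l ∧ l ≤ m ∧ y (l - 1) < n ∧ y l = y (l - 1) + 1 then
    W m n (l - 1) i (up y (l - 1))
  else if _hm : m ≤ i then
    (if l < m then 0 else (if Full m n y then 1 else 0) +
      ∑ r : Fin (m + 1), if _h : Free n y r then W m n l i (up y r) else 0)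
  else if _hb : l < i ∧ y (i + 1) = y i then W m n l (i - 1) y
  else (∑ r : Fin (m + 1),
      if _h : y r < n ∧ (r.val = l ∨ Free n y r) then W m n l i (up y r) else 0) +
    (if _h : l = i ∧ y i = n ∧ y (i + 1) = n then W m n (i + 1) (i + 1) y else 0)
termination_by (rest m n y, m - l, i)
decreasing_by
  · exact Prod.Lex.left _ _ (rest_up (by omega) (by omega))
  · exact Prod.Lex.left _ _ (rest_up (by have := r.isLt; omega) _h.1)
  · exact Prod.Lex.right _ (Prod.Lex.right _ (by omega))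
  · exact Prod.Lex.left _ _ (rest_up (by have := r.isLt; omega) _h.1)
  · exact Prod.Lex.right _ (Prod.Lex.left _ _ (by omega))

/-- not virtual at `l` -/
def Real (m n l : ℕ) (y : ℕ → ℕ) : Prop :=
  ¬ (1 ≤ l ∧ l ≤ m ∧ y (l - 1) < n ∧ y l = y (l - 1) + 1)

theorem W_virt {m n l i : ℕ} {y : ℕ → ℕ} (h1 : 1 ≤ l) (h2 : l ≤ m) (h3 : y (l - 1) < n)
    (h4 : y l = y (l - 1) + 1) : W m n l i y = W m n (l - 1) i (up y (l - 1)) := by
  rw [W, dif_pos ⟨h1, h2, h3, h4⟩]

theorem W_zero {m n : ℕ} : ∀ (l : ℕ) (y : ℕ → ℕ), l < m → W m n l m y = 0 := by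
  intro l
  induction l with
  | zero =>
    intro y h
    rw [W, dif_neg (by omega), dif_pos le_rfl, if_pos h]
  | succ l ih =>
    intro y h
    by_cases hv : 1 ≤ l + 1 ∧ l + 1 ≤ m ∧ y (l + 1 - 1) < n ∧ y (l + 1) = y (l + 1 - 1) + 1
    · rw [W_virt hv.1 hv.2.1 hv.2.2.1 hv.2.2.2]
      exact ih _ (by omega)
    · rw [W, dif_neg hv, dif_pos le_rfl, if_pos h]

theorem W_top {m n : ℕ} {y : ℕ → ℕ} (h : Real m n m y) :
    W m n m m y = (if Full m n y then 1 else 0) +
      ∑ r ∈ range (m + 1), if Free n y r then W m n m m (up y r) else 0 := by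
  rw [W, dif_neg h, dif_pos le_rfl, if_neg (lt_irrefl m), Finset.sum_range]
  simp only [dite_eq_ite]

theorem W_b {m n : ℕ} {i : ℕ} : ∀ (l : ℕ) (y : ℕ → ℕ), l < i → i < m → y (i + 1) = y i →
    W m n l i y = W m n l (i - 1) y := by
  intro l
  induction l with
  | zero =>
    intro y h1 h2 h3
    rw [W, dif_neg (by omega), dif_neg (by omega), dif_pos ⟨h1, h3⟩]
  | succ l ih =>
    intro y h1 h2 h3
    by_cases hv : 1 ≤ l + 1 ∧ l + 1 ≤ m ∧ y (l + 1 - 1) < n ∧ y (l + 1) = y (l + 1 - 1) + 1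
    · rw [W_virt hv.1 hv.2.1 hv.2.2.1 hv.2.2.2, W_virt hv.1 hv.2.1 hv.2.2.1 hv.2.2.2]
      refine ih _ (by omega) h2 ?_
      rw [up_ne _ (by omega), up_ne _ (by omega), h3]
    · rw [W, dif_neg hv, dif_neg (by omega), dif_pos ⟨h1, h3⟩]

theorem W_a {m n l i : ℕ} {y : ℕ → ℕ} (h : Real m n l y) (hi : i < m)
    (hb : ¬ (l < i ∧ y (i + 1) = y i)) :
    W m n l i y = (∑ r ∈ range (m + 1),
      if y r < n ∧ (r = l ∨ Free n y r) then W m n l i (up y r) else 0) +
      (if l = i ∧ y i = n ∧ y (i + 1) = n then W m n (i + 1) (i + 1) y else 0) := by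
  rw [W, dif_neg h, dif_neg (by omega), dif_neg hb, Finset.sum_range]
  simp only [dite_eq_ite]

theorem Chain.real {m n : ℕ} {y : ℕ → ℕ} (h : Chain m n y) (l : ℕ) : Real m n l y := by
  rintro ⟨h1, h2, h3, h4⟩
  have := h.2 (l - 1) (by omega)
  rw [Nat.sub_add_cancel h1] at this
  omega

/-- pushing up -/
theorem push {m n i l : ℕ} {y : ℕ → ℕ} (hl : l ≤ m) (hn : y l < n) : ∀ L, L ≤ l →
    (∀ r, L ≤ r → r ≤ l → y r = y l) → W m n l i (up y l) = W m n L i (blk y L l) := by
  intro L hL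
  obtain ⟨d, rfl⟩ := Nat.exists_eq_add_of_le hL
  clear hL
  induction d generalizing L with
  | zero =>
    intro _
    congr 1
    funext s
    unfold up blk
    split_ifs <;> omega
  | succ d ih =>
    intro heq
    have h1 := ih (L + 1) (by omega) (by rw [show L + 1 + d = L + (d + 1) by ring]; exact hn)
      (fun r h1 h2 => by
        rw [show L + 1 + d = L + (d + 1) by ring]
        exact heq r (by omega) (by omega))
    rw [show L + 1 + d = L + (d + 1) by ring] at h1
    rw [h1]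
    have e1 := heq L le_rfl (by omega)
    have e2 := heq (L + 1) (by omega) (by omega)
    have e3 : blk y (L + 1) (L + (d + 1)) L = y L := if_neg (by omega)
    have e4 : blk y (L + 1) (L + (d + 1)) (L + 1) = y (L + 1) + 1 := if_pos (by omega)
    rw [W_virt (by omega) (by omega) (by rw [Nat.add_sub_cancel, e3]; omega)
      (by rw [Nat.add_sub_cancel, e3, e4]; omega), Nat.add_sub_cancel]
    congr 1
    funext s
    unfold up blk
    split_ifs <;> omega

/-- the top of a block of equal rows -/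
theorem exists_top {m n : ℕ} {y : ℕ → ℕ} (h : Chain m n y) : ∀ l, l ≤ m →
    ∃ L, L ≤ l ∧ (∀ r, L ≤ r → r ≤ l → y r = y l) ∧ (L = 0 ∨ y l < y (L - 1)) := by
  intro l
  induction l with
  | zero =>
    intro _
    exact ⟨0, le_rfl, fun r _ h2 => by rw [Nat.le_zero.1 h2], Or.inl rfl⟩
  | succ l ih =>
    intro hl
    have h1 := h.2 l (by omega)
    rcases h1.lt_or_eq with h1 | h1
    · exact ⟨l + 1, le_rfl, fun r h2 h3 => by rw [le_antisymm h3 h2], Or.inr h1⟩
    · obtain ⟨L, h2, h3, h4⟩ := ih (by omega)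
      refine ⟨L, by omega, fun r h5 h6 => ?_, by rw [h1]; exact h4⟩
      rcases Nat.lt_or_ge l r with h7 | h7
      · rw [show r = l + 1 by omega]
      · rw [h3 r h5 h7, h1]

theorem Chain.le {m n : ℕ} {y : ℕ → ℕ} (h : Chain m n y) {r s : ℕ} (hrs : r ≤ s) (hs : s ≤ m) :
    y s ≤ y r := by
  obtain ⟨d, rfl⟩ := Nat.exists_eq_add_of_le hrs
  clear hrs
  induction d with
  | zero => exact le_rfl
  | succ d ih => exact (h.2 (r + d) (by omega)).trans (ih (by omega))

theorem Chain.up {m n : ℕ} {y : ℕ → ℕ} (h : Chain m n y) {r : ℕ} (hr : Free n y r) :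
    Chain m n (up y r) := by
  refine ⟨fun s hs => ?_, fun s hs => ?_⟩
  · by_cases h1 : s = r
    · rw [h1, up_self]
      exact hr.1
    · rw [up_ne _ h1]
      exact h.1 s hs
  · have h1 := h.2 s hs
    have h2 := hr.2
    by_cases h3 : s + 1 = r
    · rw [h3, up_self, up_ne _ (by omega)]
      rw [← h3] at h2 ⊢
      rw [Nat.add_sub_cancel] at h2
      omega
    · rw [up_ne _ h3]
      by_cases h4 : s = r
      · rw [h4, up_self, ← h4]
        omega
      · rw [up_ne _ h4]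
        exact h1

end Pool.Agent.Lib_helper36.GC7
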