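import Pool.Agent.Lib_helper36.GC7.Base

/-!
# The relations of the family `W l i y`
-/

set_option autoImplicit false

namespace Pool.Agent.Lib_helper36.GC7

open Finset

/-- the exchange relation -/
def RR (m n l j : ℕ) (p : ℕ → ℕ) : Prop :=
  (if p l < n then W m n l j (up p l) else 0) + W m n l j (up p (j + 1)) =
    W m n (l + 1) (max (l + 1) j) p + W m n l (j + 1) (up p (j + 1))

/-- the step down -/
def TT (m n i : ℕ) (y : ℕ → ℕ) : Prop := W m n i i (up y i) = W m n (i + 1) (i + 1) y

/-- the recursion at equal rows -/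
def EE (m n l i : ℕ) (q : ℕ → ℕ) : Prop :=
  W m n l i q = (∑ r ∈ range (m + 1), if r ≠ l ∧ Free n q r then W m n l i (up q r) else 0) +
    W m n (l + 1) (max (l + 1) i) q

/-- all relations at `y` -/
structure Lev (m n : ℕ) (y : ℕ → ℕ) : Prop where
  rr : ∀ l j, l ≤ j → j < m → y (j + 1) < y j → RR m n l j y
  tt : ∀ i, i < m → y (i + 1) = y i → y i < n → TT m n i y
  ee : ∀ l i, l ≤ i → i < m → y (i + 1) = y i → EE m n l i y

theorem split_l {m n l : ℕ} {y : ℕ → ℕ} (hl : l ≤ m) (F : ℕ → ℕ) :
    (∑ r ∈ range (m + 1), if y r < n ∧ (r = l ∨ Free n y r) then F r else 0) =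
      (∑ r ∈ range (m + 1), if r ≠ l ∧ Free n y r then F r else 0) +
        (if y l < n then F l else 0) := by
  have h1 : (if y l < n then F l else 0) =
      ∑ r ∈ range (m + 1), if r = l then (if y l < n then F l else 0) else 0 := by
    rw [Finset.sum_ite_eq', if_pos (Finset.mem_range.2 (by omega))]
  rw [h1, ← Finset.sum_add_distrib]
  refine Finset.sum_congr rfl fun r _ => ?_
  by_cases h2 : r = l
  · rw [h2, if_neg (by tauto : ¬ (l ≠ l ∧ Free n y l)), if_pos rfl, zero_add]
    by_cases h3 : y l < n
    · rw [if_pos ⟨h3, Or.inl rfl⟩, if_pos h3]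
    · rw [if_neg (fun h => h3 h.1), if_neg h3]
  · rw [if_neg h2, add_zero]
    by_cases h3 : Free n y r
    · rw [if_pos ⟨h3.1, Or.inr h3⟩, if_pos ⟨h2, h3⟩]
    · rw [if_neg (by tauto), if_neg (by tauto)]

/-! ## Expansions -/

theorem c_exp {m n l j : ℕ} {p : ℕ → ℕ} (hp : Chain m n p) (hlj : l ≤ j) (hj : j < m)
    (hs : p (j + 1) < p j) : W m n (l + 1) (max (l + 1) j) p =
      ∑ r ∈ range (m + 1), if p r < n ∧ (r = l + 1 ∨ Free n p r) then
        W m n (l + 1) (max (l + 1) j) (up p r) else 0 := by
  have hpn := hp.1 j (by omega)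
  rcases hlj.lt_or_eq with h | h
  · rw [max_eq_right (by omega), W_a (hp.real _) hj (by omega), if_neg (by omega), add_zero]
  · subst h
    rw [max_eq_left (by omega)]
    rcases (Nat.succ_le_of_lt hj).lt_or_eq with h1 | h1
    · have h1' : l + 1 < m := h1
      rw [W_a (hp.real _) h1' (by omega), if_neg (by omega), add_zero]
    · have h1' : l + 1 = m := h1
      subst h1'
      rw [W_top (hp.real _), if_neg (fun h => by have := h (l + 1) (by omega); omega), zero_add]
      refine Finset.sum_congr rfl fun r _ => ?_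
      by_cases h3 : Free n p r
      · rw [if_pos h3, if_pos ⟨h3.1, Or.inr h3⟩]
      · rw [if_neg h3, if_neg]
        rintro ⟨h4, h5 | h5⟩
        · apply h3
          rw [h5]
          refine ⟨by omega, Or.inr ?_⟩
          rw [Nat.add_sub_cancel]
          exact hs
        · exact h3 h5

theorem free_succ {m n j : ℕ} {p : ℕ → ℕ} (hp : Chain m n p) (hj : j < m)
    (hs : p (j + 1) < p j) : Free n p (j + 1) := by
  have := hp.1 j (by omega)
  refine ⟨by omega, Or.inr ?_⟩
  rw [Nat.add_sub_cancel]
  exact hs

theorem d_exp {m n l j : ℕ} {p : ℕ → ℕ} (hp : Chain m n p) (hlj : l ≤ j) (hj : j < m)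
    (hs : p (j + 1) < p j) : W m n l (j + 1) (up p (j + 1)) =
      ∑ r ∈ range (m + 1), if up p (j + 1) r < n ∧ (r = l ∨ Free n (up p (j + 1)) r) then
        W m n l (j + 1) (up (up p (j + 1)) r) else 0 := by
  have hq := hp.up (free_succ hp hj hs)
  rcases (Nat.succ_le_of_lt hj).lt_or_eq with h1 | h1
  · have h1' : j + 1 < m := h1
    have h2 := hp.2 (j + 1) h1'
    rw [W_a (hq.real _) h1' (by rw [up_self, up_ne _ (by omega)]; omega), if_neg (by omega),
      add_zero]
  · have h1' : j + 1 = m := h1
    subst h1'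
    rw [W_zero _ _ (by omega)]
    symm
    refine Finset.sum_eq_zero fun r _ => ?_
    split_ifs
    · exact W_zero _ _ (by omega)
    · rfl

theorem Chain.blk {m n L l : ℕ} {p : ℕ → ℕ} (hp : Chain m n p) (hl : l ≤ m) (hn : p l < n)
    (hL : L ≤ l) (heq : ∀ r, L ≤ r → r ≤ l → p r = p l) (htop : L = 0 ∨ p l < p (L - 1)) :
    Chain m n (blk p L l) := by
  refine ⟨fun s hs => ?_, fun s hs => ?_⟩
  · have h1 := hp.1 s hs
    have h2 := heq s
    unfold GC7.blk
    split_ifs <;> omega
  · have h1 := hp.2 s hs
    have h2 := heq s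
    have h3 := heq (s + 1)
    unfold GC7.blk
    rcases htop with h4 | h4
    · split_ifs <;> omega
    · by_cases h5 : s + 1 = L
      · subst h5
        rw [Nat.add_sub_cancel] at h4
        split_ifs <;> omega
      · split_ifs <;> omega

theorem rest_blk {m n L l : ℕ} {p : ℕ → ℕ} (hl : l ≤ m) (hn : p l < n) (hL : L ≤ l) :
    rest m n (blk p L l) < rest m n p := by
  unfold rest
  refine Finset.sum_lt_sum (fun s _ => ?_) ⟨l, Finset.mem_range.2 (by omega), ?_⟩
  · unfold blk
    split_ifs <;> omega
  · unfold blk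
    rw [if_pos ⟨hL, le_rfl⟩]
    omega

theorem a_exp {m n l j L : ℕ} {p : ℕ → ℕ} (hp : Chain m n p) (hlj : l ≤ j) (hj : j < m)
    (hs : p (j + 1) < p j) (hn : p l < n) (hL : L ≤ l)
    (heq : ∀ r, L ≤ r → r ≤ l → p r = p l) (htop : L = 0 ∨ p l < p (L - 1)) :
    W m n l j (up p l) =
      ∑ r ∈ range (m + 1), if blk p L l r < n ∧ (r = L ∨ Free n (blk p L l) r) then
        W m n L j (up (blk p L l) r) else 0 := by
  have hP := hp.blk (by omega) hn hL heq htop
  have hpn := hp.1 j (by omega)
  have e1 : blk p L l (j + 1) = p (j + 1) := if_neg (by omega)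
  have e2 : p j ≤ blk p L l j := by unfold blk; split_ifs <;> omega
  rw [push (by omega) hn L hL heq, W_a (hP.real _) hj (by omega), if_neg (by omega), add_zero]

/-! ## The columns -/

theorem col_gen {m n l j L : ℕ} {p : ℕ → ℕ} (hp : Chain m n p) (hlj : l ≤ j) (hj : j < m)
    (hs : p (j + 1) < p j) (hn : p l < n) (hL : L ≤ l)
    (heq : ∀ r, L ≤ r → r ≤ l → p r = p l)
    (ih : ∀ r, r ≤ m → r ≠ j + 1 → Free n p r → RR m n l j (up p r))
    {r : ℕ} (hr : r ≤ m) (h1 : r ≠ j + 1) (h2 : r ≠ l) (h3 : r ≠ L) :
    (if blk p L l r < n ∧ (r = L ∨ Free n (blk p L l) r) then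
        W m n L j (up (blk p L l) r) else 0) +
      (if up p (j + 1) r < n ∧ (r = l ∨ Free n (up p (j + 1)) r) then
        W m n l j (up (up p (j + 1)) r) else 0) =
    (if p r < n ∧ (r = l + 1 ∨ Free n p r) then
        W m n (l + 1) (max (l + 1) j) (up p r) else 0) +
      (if up p (j + 1) r < n ∧ (r = l ∨ Free n (up p (j + 1)) r) then
        W m n l (j + 1) (up (up p (j + 1)) r) else 0) := by
  have hpr := hp.1 r hr
  have hpj := hp.1 j (by omega)
  have g1 := heq r
  have g2 := heq (r - 1)
  have hc : r = 0 ∨ p r ≤ p (r - 1) := by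
    rcases Nat.eq_zero_or_pos r with h | h
    · exact Or.inl h
    · have := hp.2 (r - 1) (by omega)
      rw [Nat.sub_add_cancel h] at this
      exact Or.inr this
  by_cases hF : Free n p r
  · have hF' := hF
    unfold Free at hF'
    have hout : r < L ∨ l < r := by omega
    have fP : Free n (blk p L l) r := by
      unfold Free blk
      split_ifs <;> omega
    have fq : Free n (up p (j + 1)) r := by
      unfold Free up
      split_ifs <;> omega
    rw [if_pos ⟨fP.1, Or.inr fP⟩, if_pos ⟨fq.1, Or.inr fq⟩, if_pos ⟨hF.1, Or.inr hF⟩,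
      if_pos ⟨fq.1, Or.inr fq⟩]
    have h4 := ih r hr h1 hF
    unfold RR at h4
    have e1 : up p r l = p l := up_ne _ (by omega)
    have e5 : W m n l j (up (up p r) l) = W m n L j (blk (up p r) L l) :=
      push (by omega) (by omega) L hL (fun s hs1 hs2 => by
        rw [e1, up_ne _ (by omega)]; exact heq s hs1 hs2)
    rw [if_pos (by omega), e5] at h4
    have e2 : blk (up p r) L l = up (blk p L l) r := by
      funext s
      simp only [up, blk]
      split_ifs <;> omega
    rw [e2, up_comm p r (j + 1)] at h4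
    exact h4
  · have hF' := hF
    unfold Free at hF'
    by_cases h5 : r = l + 1
    · subst h5
      rw [Nat.add_sub_cancel] at g2 hc hF'
      have e0 : p (l + 1) = p l := by omega
      have fP : Free n (blk p L l) (l + 1) := by
        unfold Free blk
        rw [Nat.add_sub_cancel]
        split_ifs <;> omega
      have fq : ¬ Free n (up p (j + 1)) (l + 1) := by
        rintro ⟨_, h6⟩
        rw [Nat.add_sub_cancel, up_ne _ h1, up_ne _ (by omega)] at h6
        omega
      have e5 : W m n (l + 1) j (up p (l + 1)) = W m n L j (blk p L (l + 1)) :=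
        push (by omega) (by omega) L (by omega) (fun s hs1 hs2 => by
          rcases Nat.lt_or_ge l s with h | h
          · rw [show s = l + 1 by omega]
          · rw [e0]; exact heq s hs1 h)
      rw [if_pos ⟨fP.1, Or.inr fP⟩, if_neg (by tauto), if_pos ⟨by omega, Or.inl rfl⟩,
        if_neg (by tauto), add_zero, add_zero, max_eq_right (by omega), e5]
      congr 1
      funext s
      simp only [up, blk]
      split_ifs <;> omega
    · rw [if_neg (show ¬ (p r < n ∧ (r = l + 1 ∨ Free n p r)) by tauto)]
      have fP : ¬ (blk p L l r < n ∧ (r = L ∨ Free n (blk p L l) r)) := by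
        unfold Free blk
        split_ifs <;> omega
      rw [if_neg fP]
      congr 1
      by_cases h6 : r = j + 2
      · subst h6
        have e3 : p (j + 2) = p (j + 1) := by
          have e4 : j + 2 - 1 = j + 1 := rfl
          rw [e4] at hF' hc
          omega
        refine if_congr Iff.rfl ?_ rfl
        rw [W_b (i := j + 1) _ _ (by omega) (by omega) (by
          rw [up_self, up_ne _ (by omega), up_ne _ (by omega), up_self, e3])]
        rfl
      · have fq : ¬ (up p (j + 1) r < n ∧ (r = l ∨ Free n (up p (j + 1)) r)) := by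
          unfold Free up
          split_ifs <;> omega
        rw [if_neg fq, if_neg fq]

theorem col_gen' {m n l j : ℕ} {p : ℕ → ℕ} (hp : Chain m n p) (hlj : l ≤ j) (hj : j < m)
    (hs : p (j + 1) < p j) (hn : p l = n)
    (ih : ∀ r, r ≤ m → r ≠ j + 1 → Free n p r → RR m n l j (up p r))
    {r : ℕ} (hr : r ≤ m) (h1 : r ≠ j + 1) :
    (if up p (j + 1) r < n ∧ (r = l ∨ Free n (up p (j + 1)) r) then
        W m n l j (up (up p (j + 1)) r) else 0) =
    (if p r < n ∧ (r = l + 1 ∨ Free n p r) then
        W m n (l + 1) (max (l + 1) j) (up p r) else 0) +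
      (if up p (j + 1) r < n ∧ (r = l ∨ Free n (up p (j + 1)) r) then
        W m n l (j + 1) (up (up p (j + 1)) r) else 0) := by
  have hpr := hp.1 r hr
  have hpj := hp.1 j (by omega)
  have hc : r = 0 ∨ p r ≤ p (r - 1) := by
    rcases Nat.eq_zero_or_pos r with h | h
    · exact Or.inl h
    · have := hp.2 (r - 1) (by omega)
      rw [Nat.sub_add_cancel h] at this
      exact Or.inr this
  by_cases hF : Free n p r
  · have hF' := hF
    unfold Free at hF'
    have hrl : r ≠ l := fun h => by rw [h] at hF'; omega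
    have fq : Free n (up p (j + 1)) r := by
      unfold Free up
      split_ifs <;> omega
    rw [if_pos ⟨fq.1, Or.inr fq⟩, if_pos ⟨hF.1, Or.inr hF⟩, if_pos ⟨fq.1, Or.inr fq⟩]
    have h4 := ih r hr h1 hF
    unfold RR at h4
    have e1 : up p r l = p l := up_ne _ (by omega)
    rw [if_neg (by omega), zero_add, up_comm p r (j + 1)] at h4
    exact h4
  · have hF' := hF
    unfold Free at hF'
    have hc0 : ¬ (p r < n ∧ (r = l + 1 ∨ Free n p r)) := by
      rintro ⟨h5, h6 | h6⟩
      · subst h6
        rw [Nat.add_sub_cancel] at hF'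
        omega
      · exact hF h6
    rw [if_neg hc0, zero_add]
    by_cases h6 : r = j + 2
    · subst h6
      have e3 : p (j + 2) = p (j + 1) := by
        have e4 : j + 2 - 1 = j + 1 := rfl
        rw [e4] at hF' hc
        omega
      refine if_congr Iff.rfl ?_ rfl
      rw [W_b (i := j + 1) _ _ (by omega) (by omega) (by
        rw [up_self, up_ne _ (by omega), up_ne _ (by omega), up_self, e3])]
      rfl
    · have fq : ¬ (up p (j + 1) r < n ∧ (r = l ∨ Free n (up p (j + 1)) r)) := by
        rintro ⟨h7, h8⟩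
        rw [up_ne _ h1] at h7
        rcases h8 with h8 | h8
        · rw [h8] at h7
          omega
        · apply hF
          unfold Free up at h8
          unfold Free
          split_ifs at h8 <;> omega
      rw [if_neg fq, if_neg fq]

end Pool.Agent.Lib_helper36.GC7
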