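import Pool.Agent.Lib_helper36.GC7.Core

/-!
# The induction
-/

set_option autoImplicit false

namespace Pool.Agent.Lib_helper36.GC7

open Finset

theorem assemble {S : Finset ℕ} {i : ℕ} (hi : i ∈ S) (a b c d : ℕ → ℕ) {A B C D : ℕ}
    (hA : A = ∑ r ∈ S, a r) (hC : C = ∑ r ∈ S, c r) (hD : D = ∑ r ∈ S, d r)
    (hstar : B + a i + b i = ∑ r ∈ S, b r + c i + d i)
    (hrest : ∑ r ∈ S.erase i, (a r + b r) = ∑ r ∈ S.erase i, (c r + d r)) :
    A + B = C + D := by
  rw [Finset.sum_add_distrib, Finset.sum_add_distrib] at hrest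
  rw [← Finset.add_sum_erase S a hi] at hA
  rw [← Finset.add_sum_erase S b hi] at hstar
  rw [← Finset.add_sum_erase S c hi] at hC
  rw [← Finset.add_sum_erase S d hi] at hD
  omega

theorem one_col {S : Finset ℕ} {l : ℕ} (hl : l ∈ S) (f g : ℕ → ℕ)
    (h : ∀ r ∈ S, r ≠ l → f r = g r) (h1 : f l = g l) : ∑ r ∈ S, f r = ∑ r ∈ S, g r := by
  refine Finset.sum_congr rfl fun r hr => ?_
  by_cases h2 : r = l
  · rw [h2]; exact h1
  · exact h r hr h2

theorem two_cols {S : Finset ℕ} {l L : ℕ} (hl : l ∈ S) (hL : L ∈ S) (hne : L ≠ l) (f g : ℕ → ℕ)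
    (h : ∀ r ∈ S, r ≠ l → r ≠ L → f r = g r) (h1 : f l + f L = g l + g L) :
    ∑ r ∈ S, f r = ∑ r ∈ S, g r := by
  have hL' : L ∈ S.erase l := Finset.mem_erase.2 ⟨hne, hL⟩
  rw [← Finset.add_sum_erase S f hl, ← Finset.add_sum_erase S g hl,
    ← Finset.add_sum_erase (S.erase l) f hL', ← Finset.add_sum_erase (S.erase l) g hL']
  have h2 : ∑ r ∈ (S.erase l).erase L, f r = ∑ r ∈ (S.erase l).erase L, g r := by
    refine Finset.sum_congr rfl fun r hr => ?_
    rw [Finset.mem_erase, Finset.mem_erase] at hr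
    exact h r hr.2.2 hr.2.1 hr.1
  omega

theorem col_eq {m n l j : ℕ} {p : ℕ → ℕ} (hp : Chain m n p) (hlj : l ≤ j) (hj : j < m)
    (hs : p (j + 1) < p j) (hF : Free n p l) (hR : RR m n l j (up p l)) :
    (if up p l l < n ∧ (l = l ∨ Free n (up p l) l) then W m n l j (up (up p l) l) else 0) +
      (if up p (j + 1) l < n ∧ (l = l ∨ Free n (up p (j + 1)) l) then
        W m n l j (up (up p (j + 1)) l) else 0) =
    (if p l < n ∧ (l = l + 1 ∨ Free n p l) then
        W m n (l + 1) (max (l + 1) j) (up p l) else 0) +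
      (if up p (j + 1) l < n ∧ (l = l ∨ Free n (up p (j + 1)) l) then
        W m n l (j + 1) (up (up p (j + 1)) l) else 0) := by
  have h1 : up p (j + 1) l = p l := up_ne _ (by omega)
  rw [if_pos (show up p (j + 1) l < n ∧ (l = l ∨ Free n (up p (j + 1)) l) from
    ⟨by rw [h1]; exact hF.1, Or.inl rfl⟩),
    if_pos (show p l < n ∧ (l = l + 1 ∨ Free n p l) from ⟨hF.1, Or.inr hF⟩),
    if_pos (show up p (j + 1) l < n ∧ (l = l ∨ Free n (up p (j + 1)) l) from
    ⟨by rw [h1]; exact hF.1, Or.inl rfl⟩)]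
  unfold RR at hR
  rw [up_comm p (j + 1) l, ← hR]
  congr 1
  refine if_congr ?_ rfl rfl
  exact ⟨fun h => h.1, fun h => ⟨h, Or.inl rfl⟩⟩

theorem col_lt {m n l j L : ℕ} {p : ℕ → ℕ} (hp : Chain m n p) (hlj : l ≤ j) (hj : j < m)
    (hs : p (j + 1) < p j) (hn : p l < n) (hL : L < l)
    (heq : ∀ r, L ≤ r → r ≤ l → p r = p l) (htop : L = 0 ∨ p l < p (L - 1))
    (hR : RR m n l j (up p L)) (hR' : RR m n L j (blk p L l)) :
    ((if blk p L l l < n ∧ (l = L ∨ Free n (blk p L l) l) then
        W m n L j (up (blk p L l) l) else 0) +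
      (if up p (j + 1) l < n ∧ (l = l ∨ Free n (up p (j + 1)) l) then
        W m n l j (up (up p (j + 1)) l) else 0)) +
    ((if blk p L l L < n ∧ (L = L ∨ Free n (blk p L l) L) then
        W m n L j (up (blk p L l) L) else 0) +
      (if up p (j + 1) L < n ∧ (L = l ∨ Free n (up p (j + 1)) L) then
        W m n l j (up (up p (j + 1)) L) else 0)) =
    ((if p l < n ∧ (l = l + 1 ∨ Free n p l) then
        W m n (l + 1) (max (l + 1) j) (up p l) else 0) +
      (if up p (j + 1) l < n ∧ (l = l ∨ Free n (up p (j + 1)) l) then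
        W m n l (j + 1) (up (up p (j + 1)) l) else 0)) +
    ((if p L < n ∧ (L = l + 1 ∨ Free n p L) then
        W m n (l + 1) (max (l + 1) j) (up p L) else 0) +
      (if up p (j + 1) L < n ∧ (L = l ∨ Free n (up p (j + 1)) L) then
        W m n l (j + 1) (up (up p (j + 1)) L) else 0)) := by
  have g1 := heq L le_rfl hL.le
  have g2 := heq (l - 1) (by omega) (by omega)
  have e1 : up p (j + 1) l = p l := up_ne _ (by omega)
  have e2 : up p (j + 1) L = p L := up_ne _ (by omega)
  have hFL : Free n p L := ⟨by omega, by rw [g1]; exact htop⟩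
  have hFq : Free n (up p (j + 1)) L := by
    refine ⟨by rw [e2]; exact hFL.1, ?_⟩
    rw [e2, up_ne _ (by omega)]
    exact hFL.2
  have hNl : ¬ Free n p l := by
    rintro ⟨_, h | h⟩ <;> omega
  have hNP : ¬ (blk p L l l < n ∧ (l = L ∨ Free n (blk p L l) l)) := by
    rintro ⟨_, h | h⟩
    · omega
    · have h' := h.2
      have e3 : blk p L l l = p l + 1 := if_pos ⟨hL.le, le_rfl⟩
      have e4 : blk p L l (l - 1) = p (l - 1) + 1 := if_pos ⟨by omega, by omega⟩
      rw [e3, e4] at h'
      omega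
  rw [if_neg hNP,
    if_pos (show up p (j + 1) l < n ∧ (l = l ∨ Free n (up p (j + 1)) l) from
      ⟨by rw [e1]; exact hn, Or.inl rfl⟩),
    if_pos (show up p (j + 1) L < n ∧ (L = l ∨ Free n (up p (j + 1)) L) from
      ⟨hFq.1, Or.inr hFq⟩),
    if_neg (show ¬ (p l < n ∧ (l = l + 1 ∨ Free n p l)) from by
      rintro ⟨_, h | h⟩
      · omega
      · exact hNl h),
    if_pos (show up p (j + 1) l < n ∧ (l = l ∨ Free n (up p (j + 1)) l) from
      ⟨by rw [e1]; exact hn, Or.inl rfl⟩),
    if_pos (show p L < n ∧ (L = l + 1 ∨ Free n p L) from ⟨hFL.1, Or.inr hFL⟩),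
    if_pos (show up p (j + 1) L < n ∧ (L = l ∨ Free n (up p (j + 1)) L) from
      ⟨hFq.1, Or.inr hFq⟩)]
  -- the pushes
  have c1 : blk (up p (j + 1)) L l = up (blk p L l) (j + 1) := by
    funext s
    simp only [up, blk]
    split_ifs <;> omega
  have p1 : ∀ k, W m n l k (up (up p (j + 1)) l) = W m n L k (up (blk p L l) (j + 1)) := by
    intro k
    rw [← c1]
    exact push (by omega) (by rw [e1]; exact hn) L hL.le (fun s hs1 hs2 => by
      rw [e1, up_ne _ (by omega)]; exact heq s hs1 hs2)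
  have e5 : up p L l = p l := up_ne _ (by omega)
  have c2 : blk (up p L) (L + 1) l = blk p L l := by
    funext s
    simp only [up, blk]
    split_ifs <;> omega
  have p2 : W m n l j (up (up p L) l) = W m n (L + 1) j (blk p L l) := by
    rw [← c2]
    exact push (by omega) (by rw [e5]; exact hn) (L + 1) hL (fun s hs1 hs2 => by
      rw [e5, up_ne _ (by omega)]; exact heq s (by omega) hs2)
  rw [p1, p1]
  unfold RR at hR hR'
  rw [e5, if_pos hn, p2, up_comm p L (j + 1)] at hR
  rw [max_eq_right (by omega)] at hR'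
  have e6 : (if blk p L l L < n ∧ (L = L ∨ Free n (blk p L l) L) then
      W m n L j (up (blk p L l) L) else 0) =
      (if blk p L l L < n then W m n L j (up (blk p L l) L) else 0) :=
    if_congr ⟨fun h => h.1, fun h => ⟨h, Or.inl rfl⟩⟩ rfl rfl
  rw [e6]
  omega

/-- the column of the star's row -/
theorem col_star {m n l j L : ℕ} {p : ℕ → ℕ} (hp : Chain m n p) (hlj : l ≤ j) (hj : j < m)
    (hs : p (j + 1) < p j) (hn : p l < n) (hL : L ≤ l)
    (heq : ∀ r, L ≤ r → r ≤ l → p r = p l)
    (hq : Lev m n (up p (j + 1))) :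
    W m n l j (up p (j + 1)) +
      (if blk p L l (j + 1) < n ∧ (j + 1 = L ∨ Free n (blk p L l) (j + 1)) then
        W m n L j (up (blk p L l) (j + 1)) else 0) +
      (if up p (j + 1) (j + 1) < n ∧ (j + 1 = l ∨ Free n (up p (j + 1)) (j + 1)) then
        W m n l j (up (up p (j + 1)) (j + 1)) else 0) =
    (∑ r ∈ range (m + 1), if up p (j + 1) r < n ∧ (r = l ∨ Free n (up p (j + 1)) r) then
        W m n l j (up (up p (j + 1)) r) else 0) +
    (if p (j + 1) < n ∧ (j + 1 = l + 1 ∨ Free n p (j + 1)) then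
        W m n (l + 1) (max (l + 1) j) (up p (j + 1)) else 0) +
    (if up p (j + 1) (j + 1) < n ∧ (j + 1 = l ∨ Free n (up p (j + 1)) (j + 1)) then
        W m n l (j + 1) (up (up p (j + 1)) (j + 1)) else 0) := by
  have hF := free_succ hp hj hs
  have hqc := hp.up hF
  have hpn := hp.1 j (by omega)
  have e1 : up p (j + 1) l = p l := up_ne _ (by omega)
  have e2 : up p (j + 1) (j + 1) = p (j + 1) + 1 := up_self _ _
  have e3 : up p (j + 1) j = p j := up_ne _ (by omega)
  have hFP : blk p L l (j + 1) < n ∧ (j + 1 = L ∨ Free n (blk p L l) (j + 1)) := by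
    have h1 : Free n (blk p L l) (j + 1) := by
      have h3 := hF.1
      unfold Free blk
      rw [Nat.add_sub_cancel]
      split_ifs <;> omega
    exact ⟨h1.1, Or.inr h1⟩
  have c1 : blk (up p (j + 1)) L l = up (blk p L l) (j + 1) := by
    funext s
    simp only [up, blk]
    split_ifs <;> omega
  have p1 : W m n l j (up (up p (j + 1)) l) = W m n L j (up (blk p L l) (j + 1)) := by
    rw [← c1]
    exact push (by omega) (by rw [e1]; exact hn) L hL (fun s hs1 hs2 => by
      rw [e1, up_ne _ (by omega)]; exact heq s hs1 hs2)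
  rw [if_pos hFP, ← p1,
    if_pos (show p (j + 1) < n ∧ (j + 1 = l + 1 ∨ Free n p (j + 1)) from ⟨hF.1, Or.inr hF⟩)]
  rcases (Nat.succ_le_of_lt hs).lt_or_eq with h | h
  · -- not tight
    have h' : p (j + 1) + 1 < p j := h
    have hFq : Free n (up p (j + 1)) (j + 1) := by
      refine ⟨by omega, Or.inr ?_⟩
      rw [Nat.add_sub_cancel, e2, e3]
      exact h'
    have hc : up p (j + 1) (j + 1) < n ∧ (j + 1 = l ∨ Free n (up p (j + 1)) (j + 1)) :=
      ⟨hFq.1, Or.inr hFq⟩
    rw [if_pos hc, if_pos hc]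
    have hR := hq.rr l j hlj hj (by rw [e2, e3]; exact h')
    unfold RR at hR
    rw [if_pos (by rw [e1]; exact hn)] at hR
    have hB : W m n l j (up p (j + 1)) = ∑ r ∈ range (m + 1),
        if up p (j + 1) r < n ∧ (r = l ∨ Free n (up p (j + 1)) r) then
        W m n l j (up (up p (j + 1)) r) else 0 := by
      rw [W_a (hqc.real _) hj (by omega), if_neg (by omega), add_zero]
    omega
  · -- tight
    have h' : p (j + 1) + 1 = p j := h
    have hc : ¬ (up p (j + 1) (j + 1) < n ∧ (j + 1 = l ∨ Free n (up p (j + 1)) (j + 1))) := by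
      rintro ⟨_, h2 | h2⟩
      · omega
      · have h3 := h2.2
        rw [Nat.add_sub_cancel, e2, e3] at h3
        omega
    rw [if_neg hc, if_neg hc, add_zero, add_zero]
    have hE := hq.ee l j hlj hj (by rw [e2, e3]; exact h')
    unfold EE at hE
    have hsp := split_l (m := m) (n := n) (l := l) (y := up p (j + 1)) (by omega)
      (fun r => W m n l j (up (up p (j + 1)) r))
    rw [if_pos (show up p (j + 1) l < n by rw [e1]; exact hn)] at hsp
    omega

theorem col_star' {m n l j : ℕ} {p : ℕ → ℕ} (hp : Chain m n p) (hlj : l ≤ j) (hj : j < m)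
    (hs : p (j + 1) < p j) (hn : p l = n) (hq : Lev m n (up p (j + 1))) :
    W m n l j (up p (j + 1)) + 0 +
      (if up p (j + 1) (j + 1) < n ∧ (j + 1 = l ∨ Free n (up p (j + 1)) (j + 1)) then
        W m n l j (up (up p (j + 1)) (j + 1)) else 0) =
    (∑ r ∈ range (m + 1), if up p (j + 1) r < n ∧ (r = l ∨ Free n (up p (j + 1)) r) then
        W m n l j (up (up p (j + 1)) r) else 0) +
    (if p (j + 1) < n ∧ (j + 1 = l + 1 ∨ Free n p (j + 1)) then
        W m n (l + 1) (max (l + 1) j) (up p (j + 1)) else 0) +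
    (if up p (j + 1) (j + 1) < n ∧ (j + 1 = l ∨ Free n (up p (j + 1)) (j + 1)) then
        W m n l (j + 1) (up (up p (j + 1)) (j + 1)) else 0) := by
  have hF := free_succ hp hj hs
  have hqc := hp.up hF
  have hpn := hp.1 j (by omega)
  have e1 : up p (j + 1) l = p l := up_ne _ (by omega)
  have e2 : up p (j + 1) (j + 1) = p (j + 1) + 1 := up_self _ _
  have e3 : up p (j + 1) j = p j := up_ne _ (by omega)
  rw [if_pos (show p (j + 1) < n ∧ (j + 1 = l + 1 ∨ Free n p (j + 1)) from ⟨hF.1, Or.inr hF⟩),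
    add_zero]
  rcases (Nat.succ_le_of_lt hs).lt_or_eq with h | h
  · -- not tight
    have h' : p (j + 1) + 1 < p j := h
    have hFq : Free n (up p (j + 1)) (j + 1) := by
      refine ⟨by omega, Or.inr ?_⟩
      rw [Nat.add_sub_cancel, e2, e3]
      exact h'
    have hc : up p (j + 1) (j + 1) < n ∧ (j + 1 = l ∨ Free n (up p (j + 1)) (j + 1)) :=
      ⟨hFq.1, Or.inr hFq⟩
    rw [if_pos hc, if_pos hc]
    have hR := hq.rr l j hlj hj (by rw [e2, e3]; exact h')
    unfold RR at hR
    rw [if_neg (by rw [e1]; omega), zero_add] at hR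
    have hB : W m n l j (up p (j + 1)) = ∑ r ∈ range (m + 1),
        if up p (j + 1) r < n ∧ (r = l ∨ Free n (up p (j + 1)) r) then
        W m n l j (up (up p (j + 1)) r) else 0 := by
      rw [W_a (hqc.real _) hj (by omega), if_neg (by omega), add_zero]
    omega
  · -- tight
    have h' : p (j + 1) + 1 = p j := h
    have hc : ¬ (up p (j + 1) (j + 1) < n ∧ (j + 1 = l ∨ Free n (up p (j + 1)) (j + 1))) := by
      rintro ⟨_, h2 | h2⟩
      · omega
      · have h3 := h2.2
        rw [Nat.add_sub_cancel, e2, e3] at h3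
        omega
    rw [if_neg hc, if_neg hc, add_zero, add_zero]
    have hE := hq.ee l j hlj hj (by rw [e2, e3]; exact h')
    unfold EE at hE
    have hsp := split_l (m := m) (n := n) (l := l) (y := up p (j + 1)) (by omega)
      (fun r => W m n l j (up (up p (j + 1)) r))
    rw [if_neg (show ¬ up p (j + 1) l < n by rw [e1]; omega), add_zero] at hsp
    omega

theorem rr_step {m n : ℕ} {p : ℕ → ℕ} (hp : Chain m n p)
    (ih : ∀ q, Chain m n q → rest m n q < rest m n p → Lev m n q) {l j : ℕ} (hlj : l ≤ j)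
    (hj : j < m) (hs : p (j + 1) < p j) : RR m n l j p := by
  have hF := free_succ hp hj hs
  have hq := ih _ (hp.up hF) (rest_up (by omega) hF.1)
  have ihR : ∀ r, r ≤ m → r ≠ j + 1 → Free n p r → RR m n l j (up p r) := by
    intro r hr h1 h2
    refine (ih _ (hp.up h2) (rest_up hr h2.1)).rr l j hlj hj ?_
    rw [up_ne _ h1.symm]
    unfold up
    split_ifs <;> omega
  have hmem : ∀ r, r ≤ m → r ∈ range (m + 1) := fun r hr => Finset.mem_range.2 (by omega)
  unfold RR
  rcases (hp.1 l (by omega)).lt_or_eq with hn | hn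
  · rw [if_pos hn]
    obtain ⟨L, hL, heq, htop⟩ := exists_top hp l (by omega)
    refine assemble (hmem (j + 1) (by omega)) _
      (fun r => if up p (j + 1) r < n ∧ (r = l ∨ Free n (up p (j + 1)) r) then
        W m n l j (up (up p (j + 1)) r) else 0) _ _ (a_exp hp hlj hj hs hn hL heq htop)
      (c_exp hp hlj hj hs) (d_exp hp hlj hj hs) (col_star hp hlj hj hs hn hL heq hq) ?_
    have hgen := fun r (hr : r ∈ (range (m + 1)).erase (j + 1)) (h2 : r ≠ l) (h3 : r ≠ L) =>
      col_gen hp hlj hj hs hn hL heq ihR (r := r)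
        (by rw [Finset.mem_erase, Finset.mem_range] at hr; omega)
        (by rw [Finset.mem_erase] at hr; exact hr.1) h2 h3
    rcases hL.lt_or_eq with hLl | hLl
    · refine two_cols (l := l) (L := L)
        (Finset.mem_erase.2 ⟨by omega, hmem l (by omega)⟩)
        (Finset.mem_erase.2 ⟨by omega, hmem L (by omega)⟩) hLl.ne _ _ hgen ?_
      have hbc := hp.blk (by omega) hn hL heq htop
      refine col_lt hp hlj hj hs hn hLl heq htop (ihR L (by omega) (by omega) ?_) ?_
      · have g1 := heq L le_rfl hL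
        exact ⟨by omega, by rw [g1]; exact htop⟩
      · refine (ih _ hbc (rest_blk (by omega) hn hL)).rr L j (by omega) hj ?_
        unfold blk
        split_ifs <;> omega
    · subst hLl
      have hFl : Free n p L := ⟨hn, htop⟩
      have e : blk p L L = up p L := by
        funext s
        unfold up blk
        split_ifs <;> omega
      rw [e] at hgen ⊢
      refine one_col (l := L) (Finset.mem_erase.2 ⟨by omega, hmem L (by omega)⟩) _ _
        (fun r hr h2 => hgen r hr h2 h2) ?_
      exact col_eq hp hlj hj hs hFl (ihR L (by omega) (by omega) hFl)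
  · rw [if_neg (by omega)]
    refine assemble (hmem (j + 1) (by omega)) (fun _ => 0)
      (fun r => if up p (j + 1) r < n ∧ (r = l ∨ Free n (up p (j + 1)) r) then
        W m n l j (up (up p (j + 1)) r) else 0) _ _ (by rw [Finset.sum_const_zero])
      (c_exp hp hlj hj hs) (d_exp hp hlj hj hs) (col_star' hp hlj hj hs hn hq) ?_
    refine Finset.sum_congr rfl fun r hr => ?_
    rw [Finset.mem_erase, Finset.mem_range] at hr
    rw [zero_add]
    exact col_gen' hp hlj hj hs hn ihR (by omega) hr.1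

end Pool.Agent.Lib_helper36.GC7
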